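import Mathlib
import Pool.Agent.TH236.NBMain

set_option autoImplicit false

open Metric Set Filter Topology

namespace Pool.Agent.Results.MP_ca9574_an.SmoothNaturalBoundary

/-- `A^∞(B)`: holomorphic in the open unit ball `B` of `ℂⁿ`, and for every order `k` the total
derivative of order `k` (the collection of all partial derivatives of order `k`) extends
continuously to the closed ball. -/
def InAInfty (n : ℕ) (f : EuclideanSpace ℂ (Fin n) → ℂ) : Prop :=
  DifferentiableOn ℂ f (ball 0 1) ∧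
    ∀ k : ℕ, ∃ F : EuclideanSpace ℂ (Fin n) →
        ContinuousMultilinearMap ℂ (fun _ : Fin k => EuclideanSpace ℂ (Fin n)) ℂ,
      ContinuousOn F (closedBall 0 1) ∧
        ∀ z ∈ ball (0 : EuclideanSpace ℂ (Fin n)) 1, iteratedFDeriv ℂ k f z = F z

/-- `g`, holomorphic in the open unit disc, has the unit circle as its natural boundary: no point
`τ` of the circle is the centre of an open disc on which some holomorphic function agrees with `g`
on the part inside the unit disc. -/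
def NaturalBoundary (g : ℂ → ℂ) : Prop :=
  ∀ τ : ℂ, ‖τ‖ = 1 → ∀ r : ℝ, 0 < r →
    ¬ ∃ h : ℂ → ℂ, DifferentiableOn ℂ h (ball τ r) ∧ ∀ s ∈ ball τ r ∩ ball (0 : ℂ) 1, h s = g s

/-- property (NB): for every nonconstant affine `Φ(s) = a + s b` mapping the unit circle into the
unit sphere, `f ∘ Φ` has the unit circle as its natural boundary. -/
def PropertyNB (n : ℕ) (f : EuclideanSpace ℂ (Fin n) → ℂ) : Prop :=
  ∀ a b : EuclideanSpace ℂ (Fin n), b ≠ 0 → (∀ s : ℂ, ‖s‖ = 1 → ‖a + s • b‖ = 1) →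
    NaturalBoundary fun s => f (a + s • b)

open Pool.Agent.TH236.NB

/-- the affine map sends the closed disc into the closed ball and is orthogonal -/
theorem affine_facts {n : ℕ} {a b : EuclideanSpace ℂ (Fin n)}
    (h : ∀ s : ℂ, ‖s‖ = 1 → ‖a + s • b‖ = 1) :
    inner ℂ a b = 0 ∧ ‖a‖ ^ 2 + ‖b‖ ^ 2 = 1 := by
  have key : ∀ s : ℂ, ‖s‖ = 1 → ‖a‖ ^ 2 + 2 * (s * inner ℂ a b).re + ‖b‖ ^ 2 = 1 := by
    intro s hs
    have h1 := h s hs
    have h2 : ‖a + s • b‖ ^ 2 = ‖a‖ ^ 2 + 2 * RCLike.re (inner ℂ a (s • b)) + ‖s • b‖ ^ 2 :=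
      norm_add_sq (𝕜 := ℂ) a (s • b)
    rw [h1, inner_smul_right, norm_smul, hs, one_mul] at h2
    rw [one_pow] at h2
    simpa using h2.symm
  have k1 := key 1 (by simp)
  have k2 := key (-1) (by simp)
  have k3 := key Complex.I (by simp)
  have k4 := key (-Complex.I) (by simp)
  simp only [one_mul, neg_mul, Complex.neg_re, Complex.mul_re, Complex.I_re, Complex.I_im,
    zero_mul, zero_sub] at k1 k2 k3 k4
  have hre : (inner ℂ a b).re = 0 := by linarith
  have him : (inner ℂ a b).im = 0 := by linarith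
  refine ⟨Complex.ext (by simpa using hre) (by simpa using him), by linarith⟩

theorem main (n : ℕ) (hn : 0 < n) :
    ∃ f : EuclideanSpace ℂ (Fin n) → ℂ, InAInfty n f ∧ PropertyNB n f := by
  -- a dense sequence of the sphere, every term repeated infinitely often
  have hne : Nonempty (Fin n) := ⟨⟨0, hn⟩⟩
  have hnt : Nontrivial (EuclideanSpace ℂ (Fin n)) := by infer_instance
  have hne2 : (sphere (0 : EuclideanSpace ℂ (Fin n)) 1).Nonempty :=
    NormedSpace.sphere_nonempty.2 zero_le_one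
  have : Nonempty (sphere (0 : EuclideanSpace ℂ (Fin n)) 1) := hne2.to_subtype
  let ξ : ℕ → EuclideanSpace ℂ (Fin n) := fun i =>
    (TopologicalSpace.denseSeq (sphere (0 : EuclideanSpace ℂ (Fin n)) 1) i.unpair.1 :
      EuclideanSpace ℂ (Fin n))
  have hξ : ∀ i, ‖ξ i‖ = 1 := fun i => mem_sphere_zero_iff_norm.1
    (TopologicalSpace.denseSeq (sphere (0 : EuclideanSpace ℂ (Fin n)) 1) i.unpair.1).2
  let L : ℕ → EuclideanSpace ℂ (Fin n) →L[ℂ] ℂ := fun i => innerSL ℂ (ξ i)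
  have hL : ∀ i, ‖L i‖ ≤ 1 := fun i => by
    simp only [L]
    rw [innerSL_apply_norm, hξ]
  have hLz : ∀ i z, ‖L i z‖ ≤ ‖z‖ := fun i z => by
    calc ‖L i z‖ ≤ ‖L i‖ * ‖z‖ := (L i).le_opNorm z
      _ ≤ 1 * ‖z‖ := by gcongr; exact hL i
      _ = _ := one_mul _
  have hcf : ∀ i, 0 ≤ cf i := fun i => (cf_pos i).le
  have hb : ∀ i, ∀ z : EuclideanSpace ℂ (Fin n), ‖z‖ ≤ 1 → ‖(fun _ => (0 : ℂ)) i + L i z‖ ≤ 1 := by
    intro i z hz
    simpa using (hLz i z).trans hz
  refine ⟨ser cf deg (fun _ => 0) L, ⟨differentiableOn_ser hcf deg hL summable_cf hb, fun k =>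
    ⟨serD cf deg (fun _ => 0) L k, continuousOn_serD hcf deg hL summable_cf hb k,
      iteratedFDeriv_ser hcf deg hL summable_cf hb k⟩⟩, ?_⟩
  intro a b hb0 hab τ hτ r hr
  rintro ⟨h, hh, heq⟩
  obtain ⟨horth, hsq⟩ := affine_facts hab
  have hb1 : ‖b‖ ≤ 1 := by nlinarith [norm_nonneg a, norm_nonneg b, sq_nonneg ‖a‖]
  -- the one variable series
  let α : ℕ → ℂ := fun i => inner ℂ (ξ i) a
  let Λ : ℕ → ℂ →L[ℂ] ℂ := fun i => (inner ℂ (ξ i) b : ℂ) • ContinuousLinearMap.id ℂ ℂ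
  have hΛ1 : ∀ i s, Λ i s = inner ℂ (ξ i) b * s := fun i s => by simp [Λ]
  have hin : ∀ i (z : EuclideanSpace ℂ (Fin n)), ‖(inner ℂ (ξ i) z : ℂ)‖ ≤ ‖z‖ := fun i z => hLz i z
  have hΛ : ∀ i, ‖Λ i‖ ≤ 1 := fun i => by
    simp only [Λ]
    rw [norm_smul]
    calc _ ≤ ‖b‖ * 1 := by
          gcongr
          · exact hin i b
          · exact ContinuousLinearMap.norm_id_le
      _ ≤ 1 := by simpa using hb1
  have hαΛ : ∀ i s, α i + Λ i s = inner ℂ (ξ i) (a + s • b) := fun i s => by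
    rw [hΛ1, inner_add_right, inner_smul_right]; ring
  have hbd : ∀ i, ∀ s : ℂ, ‖s‖ ≤ 1 → ‖α i + Λ i s‖ ≤ 1 := by
    intro i s hs
    rw [hαΛ]
    refine (hin i _).trans ?_
    have h2 : ‖a + s • b‖ ^ 2 = ‖a‖ ^ 2 + 2 * RCLike.re (inner ℂ a (s • b)) + ‖s • b‖ ^ 2 :=
      norm_add_sq (𝕜 := ℂ) a (s • b)
    rw [inner_smul_right, horth, norm_smul] at h2
    simp only [mul_zero, map_zero, add_zero] at h2
    have h3 : ‖s‖ * ‖b‖ ≤ ‖b‖ := mul_le_of_le_one_left (norm_nonneg _) hs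
    have h4 : 0 ≤ ‖s‖ * ‖b‖ := by positivity
    have h5 : ‖a + s • b‖ ^ 2 ≤ 1 := by
      rw [h2]; nlinarith
    nlinarith [norm_nonneg (a + s • b)]
  have hser : ∀ s : ℂ, ser cf deg (fun _ => 0) L (a + s • b) = ser cf deg α Λ s := by
    intro s
    unfold ser term
    congr 1
    funext i
    rw [hαΛ, zero_add]
    rfl
  -- the derivatives of `h` at `τ`
  have hopen : IsOpen (ball τ r ∩ ball (0 : ℂ) 1) := isOpen_ball.inter isOpen_ball
  have hτcl : τ ∈ closedBall (0 : ℂ) 1 := by simp [hτ]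
  have hder : ∀ k : ℕ, iteratedDeriv k h τ = serD cf deg α Λ k τ (fun _ => 1) := by
    intro k
    have h1 : EqOn (iteratedDeriv k h) (fun s => serD cf deg α Λ k s (fun _ => 1))
        (ball τ r ∩ ball (0 : ℂ) 1) := by
      intro s hs
      have e1 : EqOn h (ser cf deg α Λ) (ball τ r ∩ ball (0 : ℂ) 1) := by
        intro w hw
        rw [heq w hw]
        exact hser w
      rw [e1.iteratedDeriv_of_isOpen hopen k hs]
      rw [iteratedDeriv_eq_iteratedFDeriv,
        iteratedFDeriv_ser hcf deg hΛ summable_cf hbd k s hs.2]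
    have hcont1 : ContinuousAt (iteratedDeriv k h) τ := by
      have hA : AnalyticAt ℂ h τ := hh.analyticAt (isOpen_ball.mem_nhds (mem_ball_self hr))
      rw [iteratedDeriv_eq_iterate]
      exact (hA.iterated_deriv k).continuousAt
    have hcont2 : ContinuousWithinAt (fun s => serD cf deg α Λ k s (fun _ => 1))
        (closedBall 0 1) τ := by
      have := (continuousOn_serD hcf deg hΛ summable_cf hbd k) τ hτcl
      exact ((ContinuousMultilinearMap.apply ℂ (fun _ : Fin k => ℂ) ℂ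
        (fun _ => (1 : ℂ))).continuous.continuousAt.comp_continuousWithinAt this)
    have hneb : (𝓝[ball τ r ∩ ball (0 : ℂ) 1] τ).NeBot := by
      rw [← mem_closure_iff_nhdsWithin_neBot]
      have hcl : τ ∈ closure (ball (0 : ℂ) 1) := by
        rw [closure_ball _ one_ne_zero]; exact hτcl
      exact isOpen_ball.inter_closure ⟨mem_ball_self hr, hcl⟩
    have t1 : Tendsto (iteratedDeriv k h) (𝓝[ball τ r ∩ ball (0 : ℂ) 1] τ)
        (𝓝 (iteratedDeriv k h τ)) := hcont1.mono_left nhdsWithin_le_nhds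
    have t2 : Tendsto (iteratedDeriv k h) (𝓝[ball τ r ∩ ball (0 : ℂ) 1] τ)
        (𝓝 (serD cf deg α Λ k τ (fun _ => 1))) := by
      have t3 : Tendsto (fun s => serD cf deg α Λ k s (fun _ => 1))
          (𝓝[ball τ r ∩ ball (0 : ℂ) 1] τ) (𝓝 (serD cf deg α Λ k τ (fun _ => 1))) :=
        hcont2.mono (inter_subset_right.trans ball_subset_closedBall)
      refine t3.congr' ?_
      filter_upwards [self_mem_nhdsWithin] with s hs using (h1 hs).symm
    exact tendsto_nhds_unique t1 t2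
  -- Cauchy estimates
  set ρ : ℝ := min (r / 2) 1 with hρdef
  have hρ : 0 < ρ := lt_min (by linarith) one_pos
  have hρ1 : ρ ≤ 1 := min_le_right _ _
  have hρr : ρ < r := lt_of_le_of_lt (min_le_left _ _) (by linarith)
  have hsub : closedBall τ ρ ⊆ ball τ r := closedBall_subset_ball hρr
  obtain ⟨M, hM⟩ := (isCompact_closedBall τ ρ).exists_bound_of_continuousOn
    (hh.continuousOn.mono hsub)
  have hM0 : 0 ≤ M := (norm_nonneg _).trans (hM τ (mem_closedBall_self hρ.le))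
  have hcauchy : ∀ k : ℕ, ‖serD cf deg α Λ k τ (fun _ => 1)‖ ≤ k.factorial * M / ρ ^ k := by
    intro k
    rw [← hder k]
    refine Complex.norm_iteratedDeriv_le_of_forall_mem_sphere_norm_le k hρ ?_ ?_
    · exact (hh.mono (closure_ball_subset_closedBall.trans hsub)).diffContOnCl
    · intro z hz
      exact hM z (sphere_subset_closedBall hz)
  -- the main inequality
  have hτn : ‖τ‖ ≤ 1 := hτ.le
  have hineq := coeff_bound (α := fun i => α i + Λ i τ) (β := fun i => Λ i 1) hρ hρ1 hM0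
    (fun i => hbd i τ hτn) (fun i => by
      rw [hΛ1, mul_one]; exact (hin i b).trans hb1)
    (fun k => serD cf deg α Λ k τ (fun _ => 1))
    (fun k => serD_one hcf deg hΛ summable_cf hbd k hτn) hcauchy
  -- good indices
  set ζ : EuclideanSpace ℂ (Fin n) := a + τ • b with hζ
  have hζ1 : ‖ζ‖ = 1 := hab τ hτ
  have hbpos : 0 < ‖b‖ := norm_pos_iff.2 hb0
  have hinner : ‖(inner ℂ ζ b : ℂ)‖ = ‖b‖ ^ 2 := by
    rw [hζ, inner_add_left, horth, zero_add, inner_smul_left, norm_mul, RCLike.norm_conj, hτ,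
      one_mul, inner_self_eq_norm_sq_to_K]
    simp
  set ε : ℝ := ρ * ‖b‖ ^ 2 / 2 with hε
  have hεpos : 0 < ε := by positivity
  have hcontξ : ContinuousAt (fun x : EuclideanSpace ℂ (Fin n) =>
      ‖(inner ℂ x ζ : ℂ)‖ + ρ * ‖(inner ℂ x b : ℂ)‖) ζ := by
    fun_prop
  have hval : 1 + ε < ‖(inner ℂ ζ ζ : ℂ)‖ + ρ * ‖(inner ℂ ζ b : ℂ)‖ := by
    rw [hinner, inner_self_eq_norm_sq_to_K, hζ1]
    have : 0 < ρ * ‖b‖ ^ 2 := by positivity
    have e1 : ‖((RCLike.ofReal (1 : ℝ) : ℂ)) ^ 2‖ = 1 := by simp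
    rw [e1, hε]
    linarith
  have hnear : ∀ᶠ x in 𝓝 ζ, 1 + ε < ‖(inner ℂ x ζ : ℂ)‖ + ρ * ‖(inner ℂ x b : ℂ)‖ :=
    hcontξ.eventually_const_lt hval
  obtain ⟨δ, hδ, hball⟩ := Metric.eventually_nhds_iff.1 hnear
  have hgrow := growth ε (M + 2) hεpos
  obtain ⟨i0, hi0⟩ := eventually_atTop.1 hgrow
  obtain ⟨k, hk⟩ := (TopologicalSpace.denseRange_denseSeq
    (sphere (0 : EuclideanSpace ℂ (Fin n)) 1)).exists_dist_lt ⟨ζ, by simp [hζ1]⟩ hδ
  set i := Nat.pair k i0 with hi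
  have hii : i0 ≤ i := Nat.right_le_pair k i0
  have hξi : ξ i = (TopologicalSpace.denseSeq (sphere (0 : EuclideanSpace ℂ (Fin n)) 1) k :
      EuclideanSpace ℂ (Fin n)) := by
    simp [ξ, hi]
  have hdist : dist (ξ i) ζ < δ := by
    rw [hξi, dist_comm]
    exact hk
  have hlow := hball hdist
  have h1 := hineq i
  have h2 := hi0 i hii
  have h3 : 1 + ε ≤ ‖α i + Λ i τ‖ + ρ * ‖Λ i 1‖ := by
    rw [hαΛ, hΛ1, mul_one]
    exact hlow.le
  have h4 : cf i * (1 + ε) ^ deg i ≤ cf i * (‖α i + Λ i τ‖ + ρ * ‖Λ i 1‖) ^ deg i := by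
    have := cf_pos i
    gcongr
  exact absurd (h2.trans_le (h4.trans h1)) (lt_irrefl _)

/-- For every `n > 1` there is a function in `A^∞(B)`, `B` the unit ball of `ℂⁿ`, with property
(NB): its restriction to every affine disc with boundary circle in the unit sphere has that circle
as natural boundary. -/
theorem result (n : ℕ) (hn : 1 < n) :
    ∃ f : EuclideanSpace ℂ (Fin n) → ℂ, InAInfty n f ∧ PropertyNB n f :=
  main n (by omega)

end Pool.Agent.Results.MP_ca9574_an.SmoothNaturalBoundary
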